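import Pool.Agent.H85.BC.Targets
import Pool.Agent.H85.BC.Basic

/-!
# Row ENF: projections below a factor corner are connected (helper67)
-/

set_option autoImplicit false

open scoped InnerProductSpace Topology
open Filter

namespace Pool.Agent.H67.BC

open Pool.Agent.H85.BC

variable {H : Type} [NormedAddCommGroup H] [InnerProductSpace ℂ H] [CompleteSpace H]

theorem pf_ENF : T_ENF H := by
  intro M p hpM hp hfac e heM he hpe _he0 f hfM hf hpf hf0
  by_contra hcon
  push Not at hcon
  apply _he0
  set K0 : Submodule ℂ H := Submodule.span ℂ {η : H | ∃ x ∈ M, ∃ ζ : H, η = x (f ζ)} with hK0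
  set K : Submodule ℂ H := K0.topologicalClosure with hK
  have : CompleteSpace K :=
    (Submodule.isClosed_topologicalClosure _).completeSpace_coe
  have hcl : ∀ (y : H →L[ℂ] H) (L : Submodule ℂ H), IsClosed (L : Set H) →
      (∀ x ∈ M, ∀ ζ : H, y (x (f ζ)) ∈ L) → ∀ η ∈ K, y η ∈ L := by
    intro y L hL hy η hη
    have h1 : K ≤ L.comap y.toLinearMap := by
      apply Submodule.topologicalClosure_minimal
      · rw [hK0, Submodule.span_le]
        rintro _ ⟨x, hx, ζ, rfl⟩
        exact hy x hx ζ
      · exact hL.preimage y.continuous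
    exact h1 hη
  set g : H →L[ℂ] H := K.starProjection with hg
  have hr : IsStarProjection g := isStarProjection_starProjection
  have hrange : ∀ η : H, g η ∈ K := fun η => Submodule.starProjection_apply_mem K η
  have hfix : ∀ η ∈ K, g η = η := fun η hη => Submodule.starProjection_eq_self_iff.2 hη
  have hmem : ∀ x ∈ M, ∀ ζ : H, x (f ζ) ∈ K := fun x hx ζ =>
    Submodule.le_topologicalClosure _ (Submodule.subset_span ⟨x, hx, ζ, rfl⟩)
  have hinv : ∀ z : H →L[ℂ] H, (∀ x ∈ M, ∀ ζ : H, z (x (f ζ)) ∈ K) → g * z * g = z * g := by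
    intro z hz
    ext η
    have h3 : z (g η) ∈ K := hcl z K (Submodule.isClosed_topologicalClosure _) hz _ (hrange η)
    simpa using hfix _ h3
  have hcomm : ∀ y : H →L[ℂ] H, (∀ x ∈ M, ∀ ζ : H, y (x (f ζ)) ∈ K) →
      (∀ x ∈ M, ∀ ζ : H, (star y) (x (f ζ)) ∈ K) → y * g = g * y := by
    intro y h1 h2
    have h3 := hinv y h1
    have h4 := congrArg star (hinv (star y) h2)
    simp only [star_mul, star_star, hr.isSelfAdjoint.star_eq] at h4
    rw [← h3, mul_assoc, h4]
  have hM : ∀ y ∈ M, y * g = g * y := by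
    intro y hy
    refine hcomm y ?_ ?_
    · intro x hx ζ
      exact hmem (y * x) (mul_mem hy hx) ζ
    · intro x hx ζ
      exact hmem (star y * x) (mul_mem (star_mem hy) hx) ζ
  have hgM : g ∈ M := by
    apply mem_of_commutant
    intro t ht
    have hst := commutes_star ht
    have h5 : ∀ s : H →L[ℂ] H, (∀ y ∈ M, y * s = s * y) →
        ∀ x ∈ M, ∀ ζ : H, s (x (f ζ)) ∈ K := by
      intro s hs x hx ζ
      have h6 : s (x (f ζ)) = x (f (s ζ)) := by
        have h7 := congrArg (fun T : H →L[ℂ] H => T (f ζ)) (hs x hx)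
        have h8 := congrArg (fun T : H →L[ℂ] H => T ζ) (hs f hfM)
        simp only [mul_app] at h7 h8
        rw [← h7, ← h8]
      rw [h6]
      exact hmem x hx _
    exact hcomm t (h5 t ht) (h5 (star t) hst)
  -- `g p` is central in the corner
  have hgp : g * p ∈ corner M p := by
    refine mem_corner (mul_mem hgM hpM) ?_ ?_
    · rw [← mul_assoc, hM p hpM, mul_assoc, hp.isIdempotentElem.eq]
    · rw [mul_assoc, hp.isIdempotentElem.eq]
  obtain ⟨c, hc⟩ := hfac (g * p) hgp (by
    intro y hy
    have h1 : p * y = y := corner_left hp hy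
    have h2 : y * p = y := corner_right hp hy
    rw [mul_assoc, h1, ← mul_assoc, hM y hy.1, mul_assoc, h2])
  have hgf : g * f = f := by
    ext ζ
    have h1 : f ζ ∈ K := by
      have := hmem 1 (one_mem M) ζ
      simpa using this
    simpa using hfix _ h1
  have hcf : f = c • f := by
    calc f = g * (p * f) := by rw [hpf, hgf]
      _ = c • f := by rw [← mul_assoc, hc, smul_mul_assoc, hpf]
  have hc1 : c = 1 := by
    by_contra hne
    have h1 : (c - 1) • f = 0 := by
      rw [sub_smul, one_smul, ← hcf, sub_self]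
    rcases smul_eq_zero.1 h1 with h2 | h2
    · exact hne (sub_eq_zero.1 h2)
    · exact hf0 h2
  have hgp1 : g * p = p := by rw [hc, hc1, one_smul]
  have hep : e * p = e := proj_mul_comm_of_le he hp hpe
  have heg : e * g = 0 := by
    ext η
    have h1 : e (g η) ∈ (⊥ : Submodule ℂ H) := by
      refine hcl e ⊥ (by simp) ?_ _ (hrange η)
      intro x hx ζ
      have h2 := congrArg (fun T : H →L[ℂ] H => T ζ) (hcon x hx)
      simpa [mul_app] using h2
    simpa using h1
  calc e = e * (g * p) := by rw [hgp1, hep]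
    _ = 0 := by rw [← mul_assoc, heg, zero_mul]

end Pool.Agent.H67.BC
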