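import Pool.Agent.H85.BC.Targets
import Pool.Agent.H85.BC.Basic

/-!
# Row MAXV: exhaustion by partial isometries (helper67)
-/

set_option autoImplicit false

open scoped InnerProductSpace Topology
open Filter

namespace Pool.Agent.H67.BC

open Pool.Agent.H85.BC

variable {H : Type} [NormedAddCommGroup H] [InnerProductSpace ℂ H] [CompleteSpace H]

theorem ext_sub {v w : H →L[ℂ] H} (hv : IsStarProjection (star v * v))
    (hw : IsStarProjection (star w * w)) (h : Ext v w) :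
    star w * w * (star v * v) = star v * v := by
  set q := star v * v with hq
  set r := star w * w with hr
  have h1 : q * r * q = q := by
    have h2 : star v * v = star (w * q) * (w * q) := by
      rw [show w * q = v from h]
    rw [star_mul, hv.isSelfAdjoint.star_eq] at h2
    calc q * r * q = q * star w * (w * q) := by rw [hr]; simp only [mul_assoc]
      _ = q := h2.symm
  have hqq := hv.isIdempotentElem.eq
  have hrr := hw.isIdempotentElem.eq
  have h3 : star (q - r * q) * (q - r * q) = 0 := by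
    have hqs : star q = q := hv.isSelfAdjoint.star_eq
    have hrs : star r = r := hw.isSelfAdjoint.star_eq
    rw [star_sub, star_mul r q, hqs, hrs]
    calc (q - q * r) * (q - r * q) = q * q - q * r * q - q * r * q + q * (r * r) * q := by
          noncomm_ring
      _ = 0 := by
        rw [hqq, hrr, h1]
        abel
  have h4 := CStarRing.star_mul_self_eq_zero_iff (q - r * q) |>.1 h3
  exact (sub_eq_zero.1 h4).symm

theorem ext_trans {v w x : H →L[ℂ] H} (hv : IsStarProjection (star v * v))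
    (hw : IsStarProjection (star w * w)) (h1 : Ext v w) (h2 : Ext w x) : Ext v x := by
  show x * (star v * v) = v
  rw [← ext_sub hv hw h1, ← mul_assoc x, show x * (star w * w) = w from h2]
  exact h1

theorem ext_norm {ξ : H} {v w : H →L[ℂ] H} (hv : IsStarProjection (star v * v))
    (hw : IsStarProjection (star w * w)) (h : Ext v w) :
    ‖(w - v) ξ‖ ^ 2 = ‖w ξ‖ ^ 2 - ‖v ξ‖ ^ 2 := by
  set q := star v * v with hq
  set r := star w * w with hr
  have hrq : r * q = q := ext_sub hv hw h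
  have hqr : q * r = q := proj_mul_comm_of_le hv hw hrq
  have h1 : star (w - v) * (w - v) = r - q := by
    have h2 : w - v = w * (1 - q) := by
      rw [mul_sub, mul_one, show w * q = v from h]
    rw [h2, star_mul, star_sub, star_one, hv.isSelfAdjoint.star_eq]
    calc (1 - q) * star w * (w * (1 - q)) = (1 - q) * r * (1 - q) := by
          rw [hr]; simp only [mul_assoc]
      _ = r - q * r - r * q + q * (r * q) := by noncomm_ring
      _ = r - q := by
        rw [hrq, hqr, hv.isIdempotentElem.eq]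
        abel
  have h3 := tr_star_mul_self ξ (w - v)
  rw [h1, tr_sub, hr, hq, tr_star_mul_self, tr_star_mul_self] at h3
  exact_mod_cast h3.symm

theorem pi_norm_le {w : H →L[ℂ] H} (hw : IsStarProjection (star w * w)) : ‖w‖ ≤ 1 := by
  have h1 := proj_norm_le_one hw
  rw [CStarRing.norm_star_mul_self] at h1
  nlinarith [norm_nonneg w]

theorem pf_MAXV (hSL : T_SL H) : T_MAXV H := by
  intro N ξ htr S hSne hS hlim
  have hext_self : ∀ v ∈ S, Ext v v := fun v hv => pi_mul_star_mul (hS v hv).2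
  have hbd : ∀ v ∈ S, ‖v ξ‖ ^ 2 ≤ 1 := by
    intro v hv
    have h1 : ‖v ξ‖ ≤ ‖v‖ * ‖ξ‖ := v.le_opNorm ξ
    rw [htr.norm_eq, mul_one] at h1
    have h2 := pi_norm_le (hS v hv).2
    nlinarith [norm_nonneg (v ξ)]
  have hstep : ∀ (n : ℕ) (v : S), ∃ w : S, Ext (v : H →L[ℂ] H) w ∧
      ∀ w' ∈ S, Ext (v : H →L[ℂ] H) w' → ‖w' ξ‖ ^ 2 ≤ ‖(w : H →L[ℂ] H) ξ‖ ^ 2 + (1 / 2 : ℝ) ^ n := by
    intro n v
    set A : Set ℝ := {t | ∃ w ∈ S, Ext (v : H →L[ℂ] H) w ∧ t = ‖w ξ‖ ^ 2} with hA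
    have hne : A.Nonempty := ⟨_, v, v.2, hext_self v v.2, rfl⟩
    have hba : BddAbove A := ⟨1, by
      rintro _ ⟨w, hw, _, rfl⟩
      exact hbd w hw⟩
    obtain ⟨t, ⟨w, hw, hvw, rfl⟩, ht⟩ := exists_lt_of_lt_csSup hne
      (show sSup A - (1 / 2 : ℝ) ^ n < sSup A by
        have : (0 : ℝ) < (1 / 2 : ℝ) ^ n := by positivity
        linarith)
    refine ⟨⟨w, hw⟩, hvw, ?_⟩
    intro w' hw' hvw'
    have h1 : ‖w' ξ‖ ^ 2 ≤ sSup A := le_csSup hba ⟨w', hw', hvw', rfl⟩
    show ‖w' ξ‖ ^ 2 ≤ ‖w ξ‖ ^ 2 + (1 / 2 : ℝ) ^ n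
    linarith
  choose nx hnx1 hnx2 using hstep
  obtain ⟨v0, hv0⟩ := hSne
  obtain ⟨V, hVs⟩ : ∃ V : ℕ → S, ∀ n, V (n + 1) = nx n (V n) :=
    ⟨fun n => Nat.rec ⟨v0, hv0⟩ (fun n v => nx n v) n, fun n => rfl⟩
  have hV1 : ∀ n, Ext (V n : H →L[ℂ] H) (V (n + 1)) := fun n => by
    rw [hVs]
    exact hnx1 n (V n)
  have hVp : ∀ n, IsStarProjection (star (V n : H →L[ℂ] H) * V n) := fun n => (hS _ (V n).2).2
  have hVm : ∀ n m, n ≤ m → Ext (V n : H →L[ℂ] H) (V m) := by
    intro n m hnm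
    induction m, hnm using Nat.le_induction with
    | base => exact hext_self _ (V n).2
    | succ m _ ih => exact ext_trans (hVp n) (hVp m) ih (hV1 m)
  have hmono : Monotone fun n => ‖(V n : H →L[ℂ] H) ξ‖ ^ 2 := by
    intro n m hnm
    have h1 := ext_norm (ξ := ξ) (hVp n) (hVp m) (hVm n m hnm)
    show ‖(V n : H →L[ℂ] H) ξ‖ ^ 2 ≤ ‖(V m : H →L[ℂ] H) ξ‖ ^ 2
    nlinarith [sq_nonneg ‖((V m : H →L[ℂ] H) - V n) ξ‖]
  have hconv : CauchySeq fun n => ‖(V n : H →L[ℂ] H) ξ‖ ^ 2 := by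
    have h1 : BddAbove (Set.range fun n => ‖(V n : H →L[ℂ] H) ξ‖ ^ 2) := ⟨1, by
      rintro _ ⟨n, rfl⟩
      exact hbd _ (V n).2⟩
    exact (tendsto_atTop_ciSup hmono h1).cauchySeq
  have hcau : CauchySeq fun n => (V n : H →L[ℂ] H) ξ := by
    rw [Metric.cauchySeq_iff']
    intro ε hε
    obtain ⟨n0, hn0⟩ := Metric.cauchySeq_iff'.1 hconv (ε ^ 2) (by positivity)
    refine ⟨n0, fun n hn => ?_⟩
    have h1 := hn0 n hn
    rw [Real.dist_eq] at h1
    have h2 := ext_norm (ξ := ξ) (hVp n0) (hVp n) (hVm n0 n hn)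
    rw [dist_eq_norm, ← sub_apply]
    have h3 : ‖((V n : H →L[ℂ] H) - V n0) ξ‖ ^ 2 < ε ^ 2 := by
      rw [h2]
      exact lt_of_le_of_lt (le_abs_self _) h1
    exact lt_of_pow_lt_pow_left₀ 2 hε.le h3
  obtain ⟨z, hzN, hz1, hz⟩ := hSL N ξ htr (fun n => (V n : H →L[ℂ] H)) 1
    (fun n => (hS _ (V n).2).1) (fun n => pi_norm_le (hVp n)) hcau
  have hzext : ∀ n, Ext (V n : H →L[ℂ] H) z := by
    intro n
    show z * (star (V n : H →L[ℂ] H) * V n) = V n
    ext η
    rw [mul_app]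
    have h1 := hz ((star (V n : H →L[ℂ] H) * V n) η)
    have h2 : Tendsto (fun m => (V m : H →L[ℂ] H) ((star (V n : H →L[ℂ] H) * V n) η)) atTop
        (𝓝 ((V n : H →L[ℂ] H) η)) := by
      refine tendsto_const_nhds.congr' ?_
      filter_upwards [eventually_ge_atTop n] with m hm
      have h3 := congrArg (fun T : H →L[ℂ] H => T η) (hVm n m hm)
      simp only [mul_app] at h3 ⊢
      exact h3.symm
    exact tendsto_nhds_unique h1 h2
  set r : H →L[ℂ] H := star z * z with hr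
  have hqrq : ∀ n, star (V n : H →L[ℂ] H) * V n * r * (star (V n : H →L[ℂ] H) * V n) =
      star (V n : H →L[ℂ] H) * V n := by
    intro n
    have h2 : star (V n : H →L[ℂ] H) * V n =
        star (z * (star (V n : H →L[ℂ] H) * V n)) * (z * (star (V n : H →L[ℂ] H) * V n)) := by
      rw [show z * (star (V n : H →L[ℂ] H) * V n) = V n from hzext n]
    rw [star_mul z, (hVp n).isSelfAdjoint.star_eq] at h2
    calc star (V n : H →L[ℂ] H) * V n * r * (star (V n : H →L[ℂ] H) * V n)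
        = star (V n : H →L[ℂ] H) * V n * star z * (z * (star (V n : H →L[ℂ] H) * V n)) := by
          rw [hr]; simp only [mul_assoc]
      _ = _ := h2.symm
  have hrn : ‖r‖ ≤ 1 := by
    rw [hr, CStarRing.norm_star_mul_self]
    nlinarith [norm_nonneg z]
  have hrsa : star r = r := by
    rw [hr, star_mul, star_star]
  have hrq : ∀ n, r * (star (V n : H →L[ℂ] H) * V n) = star (V n : H →L[ℂ] H) * V n := by
    intro n
    set q := star (V n : H →L[ℂ] H) * V n with hq
    ext η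
    rw [mul_app]
    have h1 : (inner ℂ (q η) (r (q η)) : ℂ) = inner ℂ (q η) (q η) := by
      have hqs : star q = q := (hVp n).isSelfAdjoint.star_eq
      have h2 : (inner ℂ (q η) (r (q η)) : ℂ) = inner ℂ η ((q * r * q) η) := by
        have h7 := inner_star_left q η (r (q η))
        rw [hqs] at h7
        exact h7
      have h8 : (inner ℂ (q η) (q η) : ℂ) = inner ℂ η (q η) := by
        have h7 := inner_star_left q η (q η)
        rw [hqs, ← mul_app, (hVp n).isIdempotentElem.eq] at h7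
        exact h7
      rw [h2, hqrq n, h8]
    have h3 : ‖r (q η) - q η‖ ^ 2 ≤ 0 := by
      rw [norm_sub_sq (𝕜 := ℂ), ← inner_conj_symm, h1]
      have h4 : ‖r (q η)‖ ≤ ‖q η‖ := by
        refine (r.le_opNorm _).trans ?_
        have := mul_le_mul_of_nonneg_right hrn (norm_nonneg (q η))
        rwa [one_mul] at this
      have h5 : RCLike.re ((starRingEnd ℂ) (inner ℂ (q η) (q η) : ℂ)) = ‖q η‖ ^ 2 := by
        rw [inner_conj_symm]
        exact (norm_sq_eq_re_inner (𝕜 := ℂ) (q η)).symm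
      rw [h5]
      nlinarith [norm_nonneg (r (q η))]
    have h6 : ‖r (q η) - q η‖ = 0 := by
      nlinarith [norm_nonneg (r (q η) - q η)]
    exact sub_eq_zero.1 (norm_eq_zero.1 h6)
  have hqlim : ∀ η : H, Tendsto (fun n => (star (V n : H →L[ℂ] H) * V n) η) atTop (𝓝 (r η)) := by
    intro η
    have h1 : Tendsto (fun n => (star z) ((V n : H →L[ℂ] H) η)) atTop (𝓝 ((star z) (z η))) :=
      ((star z).continuous.tendsto _).comp (hz η)
    refine h1.congr fun n => ?_
    have h2 := congrArg (fun T : H →L[ℂ] H => T η) (hrq n)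
    have h3 : z ((star (V n : H →L[ℂ] H) * V n) η) = (V n : H →L[ℂ] H) η :=
      congrArg (fun T : H →L[ℂ] H => T η) (hzext n)
    calc (star z) ((V n : H →L[ℂ] H) η) = (star z) (z ((star (V n : H →L[ℂ] H) * V n) η)) := by
          rw [h3]
      _ = (star (V n : H →L[ℂ] H) * V n) η := h2
  have hrp : IsStarProjection r := by
    refine ⟨?_, hrsa⟩
    show r * r = r
    ext η
    rw [mul_app]
    have h1 : Tendsto (fun n => r ((star (V n : H →L[ℂ] H) * V n) η)) atTop (𝓝 (r (r η))) :=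
      (r.continuous.tendsto _).comp (hqlim η)
    refine tendsto_nhds_unique h1 ((hqlim η).congr fun n => ?_)
    have h2 := congrArg (fun T : H →L[ℂ] H => T η) (hrq n)
    rw [mul_app] at h2
    exact h2.symm
  have hzS : z ∈ S := hlim (fun n => (V n : H →L[ℂ] H)) z (fun n => (V n).2) hV1 hzN hrp hzext hz
  refine ⟨z, hzS, ?_⟩
  intro v hv hzv
  have hvp := (hS v hv).2
  have h1 : ∀ n, ‖v ξ‖ ^ 2 ≤ ‖z ξ‖ ^ 2 + (1 / 2 : ℝ) ^ n := by
    intro n
    have h2 : Ext (V n : H →L[ℂ] H) v := ext_trans (hVp n) hrp (hzext n) hzv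
    have h3 := hnx2 n (V n) v hv h2
    rw [← hVs] at h3
    have h4 := ext_norm (ξ := ξ) (hVp (n + 1)) hrp (hzext (n + 1))
    nlinarith [sq_nonneg ‖(z - (V (n + 1) : H →L[ℂ] H)) ξ‖]
  have h2 : ‖v ξ‖ ^ 2 ≤ ‖z ξ‖ ^ 2 := by
    have h3 : Tendsto (fun n : ℕ => ‖z ξ‖ ^ 2 + (1 / 2 : ℝ) ^ n) atTop (𝓝 (‖z ξ‖ ^ 2 + 0)) :=
      tendsto_const_nhds.add (tendsto_pow_atTop_nhds_zero_of_lt_one (by norm_num) (by norm_num))
    rw [add_zero] at h3
    exact ge_of_tendsto' h3 h1
  have h3 := ext_norm (ξ := ξ) hrp hvp hzv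
  have h4 : ‖(v - z) ξ‖ = 0 := by
    nlinarith [norm_nonneg ((v - z) ξ), sq_nonneg ‖(v - z) ξ‖]
  exact sub_eq_zero.1 (htr.eq_zero (sub_mem (hS v hv).1 hzN) (norm_eq_zero.1 h4))

end Pool.Agent.H67.BC
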