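import Pool.Agent.H85.BC.Targets
import Pool.Agent.H85.BC.Basic

/-!
# Row SP: spectral projections (helper67)
-/

set_option autoImplicit false

open scoped InnerProductSpace Topology
open Filter

namespace Pool.Agent.H67.BC

open Pool.Agent.H85.BC

variable {H : Type} [NormedAddCommGroup H] [InnerProductSpace ℂ H] [CompleteSpace H]

theorem re_nonneg_of_nonneg {x : H →L[ℂ] H} (hx : 0 ≤ x) (ζ : H) :
    0 ≤ (inner ℂ ζ (x ζ) : ℂ).re :=
  ((ContinuousLinearMap.nonneg_iff_isPositive x).1 hx).re_inner_nonneg_right ζ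

theorem pf_SP : T_SP H := by
  intro M a haM ha s
  set b0 : H →L[ℂ] H := a - (s : ℂ) • (1 : H →L[ℂ] H) with hb0
  have hb0sa : IsSelfAdjoint b0 := by
    show star b0 = b0
    rw [hb0, star_sub, star_smul, star_one, ha.star_eq]
    congr 2
    exact Complex.conj_ofReal s
  have hcomm0 : ∀ b : H →L[ℂ] H, b * a = a * b → Commute b0 b := by
    intro b hb
    show b0 * b = b * b0
    rw [hb0, sub_mul, mul_sub, hb, smul_mul_assoc, mul_smul_comm, one_mul, mul_one]
  have hpc : ∀ b : H →L[ℂ] H, b * a = a * b → b * b0⁺ = b0⁺ * b := by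
    intro b hb
    have h1 : Commute (cfcₙ (fun x : ℝ => x⁺) b0) b := (hcomm0 b hb).cfcₙ_real _
    exact h1.eq.symm
  have hstar : ∀ b : H →L[ℂ] H, b * a = a * b → star b * a = a * star b := by
    intro b hb
    have h1 := congrArg star hb
    rw [star_mul, star_mul, ha.star_eq] at h1
    exact h1.symm
  have hpM : b0⁺ ∈ M := by
    apply mem_of_commutant
    intro t ht
    exact hpc t (ht a haM).symm
  obtain ⟨E, hEM, hE, hEx, hE2, hE3⟩ := exists_rangeProj M hpM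
  have hposnn : 0 ≤ b0⁺ := CFC.posPart_nonneg b0
  have hnegnn : 0 ≤ b0⁻ := CFC.negPart_nonneg b0
  have hsub : b0⁺ - b0⁻ = b0 := CFC.posPart_sub_negPart b0 hb0sa
  have hin : ∀ ζ : H, (inner ℂ ζ (a ζ) : ℂ).re = (inner ℂ ζ (b0 ζ) : ℂ).re + s * ‖ζ‖ ^ 2 := by
    intro ζ
    have h1 : a ζ = b0 ζ + (s : ℂ) • ζ := by
      rw [hb0]
      simp
    rw [h1, inner_add_right, inner_smul_right, inner_self_eq_norm_sq_to_K, Complex.add_re]
    congr 1
    have h2 : ((s : ℂ) * ((‖ζ‖ : ℝ) : ℂ) ^ 2) = ((s * ‖ζ‖ ^ 2 : ℝ) : ℂ) := by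
      push_cast
      ring
    show ((s : ℂ) * ((‖ζ‖ : ℝ) : ℂ) ^ 2).re = _
    rw [h2, Complex.ofReal_re]
  have hb0app : ∀ ζ : H, b0 ζ = b0⁺ ζ - b0⁻ ζ := by
    intro ζ
    rw [← sub_apply, hsub]
  refine ⟨E, hEM, hE, ?_, ?_, ?_⟩
  · intro b hb
    exact hE3 b (hpc b hb) (hpc _ (hstar b hb))
  · intro ζ hζ
    have h1 : b0⁻ * E = 0 := hE2 _ (CFC.negPart_mul_posPart b0)
    have h2 : b0⁻ ζ = 0 := by
      have h3 := congrArg (fun T : H →L[ℂ] H => T ζ) h1
      simp only [mul_app, zero_apply] at h3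
      rwa [hζ] at h3
    have h4 := re_nonneg_of_nonneg hposnn ζ
    rw [hin ζ, hb0app ζ, h2, sub_zero]
    linarith
  · intro ζ hζ
    have h0 : b0⁺ * E = E * b0⁺ := by
      refine hE3 _ rfl ?_
      have h5 : star b0⁺ = b0⁺ := (IsSelfAdjoint.of_nonneg hposnn).star_eq
      rw [h5]
    have h1 : b0⁺ ζ = 0 := by
      have h3 : b0⁺ = b0⁺ * E := by rw [h0, hEx]
      have h4 := congrArg (fun T : H →L[ℂ] H => T ζ) h3
      simp only [mul_app] at h4
      rw [h4, hζ, map_zero]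
    have h4 := re_nonneg_of_nonneg hnegnn ζ
    rw [hin ζ, hb0app ζ, h1, zero_sub, inner_neg_right, Complex.neg_re]
    linarith

end Pool.Agent.H67.BC
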